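import Pool.Agent.Run7.h397.HT.Main

/-!
# Few flips make every point-set triangulation nearly Hamiltonian

For every `ε > 0` there is a number `C` such that every triangulation of every set of `n` points in
general position can be transformed by at most `ε n ^ 2` edge flips into a triangulation which has a
closed walk of length at most `n + C` through all the vertices. (A Hamiltonian cycle is a closed
walk of length `n` through all the vertices.)

Pieces by helper376 and helper651, see `Pool/Agent/Run7/h376/HT`, `Pool/Agent/Run7/h651/HT`.
-/

set_option autoImplicit false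

namespace Pool.Agent.Results.MP_f059c0_co.NearHamiltonianFlips

open Run7.h397 Run7.h397.HT

theorem result : ∀ ε : ℝ, 0 < ε → ∃ C : ℕ,
    ∀ (V : Type) [Fintype V] [Nonempty V] (P : V → Pt), GP P →
      ∀ T : SimpleGraph V, IsTri P T →
        ∃ (k : ℕ) (T' : SimpleGraph V), FlipSeq P k T T' ∧
          (k : ℝ) ≤ ε * (Fintype.card V : ℝ) ^ 2 ∧
          ∃ (v : V) (w : T'.Walk v v), (∀ x, x ∈ w.support) ∧ w.length ≤ Fintype.card V + C :=
  Run7.h397.HT.main

end Pool.Agent.Results.MP_f059c0_co.NearHamiltonianFlips
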